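import Pool.Agent.W482.S33.Fin

/-!
# Dimension of base and fibre for submersions of positively curved manifolds (MP_6fca61_gt, Q1: disproved)

The positively curved metric on `S³ × S³` of the starting repository (joint work of its room HS:
helpers 486, 349, 515, 893, 917, 824, 991, 498, 563, 878, 821, 902, 907, 712, 758, 754, 829, 839, 227,
760, 503, 873, 124, 465, 877, 472, 381, 998, 299, 144, 6, 898, 464 and others) is given by its
cometric, a quadratic form in the body momenta `L`, `M` of the two factors.  For `M = 0` this form
depends on the first point only.  So it defines a metric on `S³`, and the first projection
`S³ × S³ → S³` is a Riemannian submersion; base and fibre have dimension `3`.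

The definition of Riemannian submersions and their basic use on a product of spheres follow
helper839's development for `S² × S³ → S²`.
-/

open Manifold

open Pool.Agent.H839R2.RS Pool.Agent.W482.S33 in
/-- For suitable smooth Riemannian metrics `g` on `S³ × S³`, of strictly positive sectional
curvature, and `h` on `S³`, the projection `S³ × S³ → S³` is a Riemannian submersion; its fibre and
its base both have dimension `3`.  So `dim F < dim B` fails. -/
theorem Pool.Agent.Results.MP_6fca61_gt.EqualDimensions.result :
    PositiveProjection 3 3 (𝓡 3) S3 (𝓡 3) S3 ∧ ¬ SubmersionBound :=
  main
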